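import Mathlib
import Pool.Agent.H.MP_76760e_an.Ext

set_option autoImplicit false

namespace Pool.Agent.Results.MP_76760e_an.Counter

open Matrix

def Pos {A : Type} [Ring A] [StarRing A] (a : ℤ × ℤ → A) (L : Finset (ℤ × ℤ)) : Prop :=
  ∃ B : Matrix L L A, (Matrix.of fun i j : L => a (i - j)) = Bᴴ * B

def ExtProp (A : Type) [Ring A] [StarRing A] (L : Finset (ℤ × ℤ)) : Prop :=
  ∀ a : ℤ × ℤ → A, Pos a L → ∀ K : Finset (ℤ × ℤ), L ⊆ K →
    ∃ b : ℤ × ℤ → A, (∀ i ∈ L, ∀ j ∈ L, b (i - j) = a (i - j)) ∧ Pos b K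

open Pool.Agent.H.MP_76760e_an Complex Filter Topology in
open scoped ComplexOrder ComplexConjugate in
theorem result : ExtProp ℂ {(0, 0), (1, 0), (0, 1)} ∧
    ¬ ExtProp C(Metric.closedBall (0 : ℂ) 1, ℂ) {(0, 0), (1, 0), (0, 1)} := by
  have hp : ∀ i, pt i ∈ ({(0, 0), (1, 0), (0, 1)} : Finset (ℤ × ℤ)) := fun i => by
    fin_cases i <;> simp [pt]
  constructor
  · intro a ha K hK
    have h1 := ((psd_iff _).mpr ha).submatrix fun i => ⟨pt i, hp i⟩
    have h2 : a 0 = (a 0).re := by
      have := (Complex.le_def.mp (h1.diag_nonneg (i := 0))).2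
      apply Complex.ext <;> simp
      simpa using this.symm
    obtain ⟨b, b1, b2⟩ := extend K (fun i => hK (hp i)) (a 0).re (fun i j => a (pt i - pt j))
      ⟨h1, fun i => by simp only [sub_self, ← h2]⟩
    refine ⟨b, fun i hi j hj => ?_, (psd_iff _).mp b2⟩
    have e : ∀ i ∈ ({(0, 0), (1, 0), (0, 1)} : Finset (ℤ × ℤ)), ∃ k, pt k = i := by decide
    obtain ⟨k, rfl⟩ := e i hi
    obtain ⟨l, rfl⟩ := e j hj
    exact b1 k l
  · intro h
    let s : C(Metric.closedBall (0 : ℂ) 1, ℂ) := ⟨fun x => x, by fun_prop⟩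
    let c : C(Metric.closedBall (0 : ℂ) 1, ℂ) := ⟨fun x => √(1 - ‖(x : ℂ)‖ ^ 2), by fun_prop⟩
    have hc : ∀ x, c x * c x + conj (s x) * s x = 1 := fun x => by
      have := mem_closedBall_zero_iff.mp x.2
      simp only [c, s, ContinuousMap.coe_mk, conj_mul']
      rw [← ofReal_mul, Real.mul_self_sqrt (by nlinarith [norm_nonneg (x : ℂ)])]
      simp
    have hc2 : ∀ x, conj (c x) = c x := fun x => conj_ofReal _
    have hc3 : star c = c := ContinuousMap.ext hc2
    have hc4 : c * c + star s * s = 1 := ContinuousMap.ext hc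
    let a : ℤ × ℤ → C(Metric.closedBall (0 : ℂ) 1, ℂ) := fun l =>
      if l = 0 then 1 else if l = (1, 0) ∨ l = (-1, 0) then c else
        if l = (1, -1) then star s else if l = (-1, 1) then s else 0
    let B : ℤ × ℤ → ℤ × ℤ → C(Metric.closedBall (0 : ℂ) 1, ℂ) := fun k j =>
      if k = j ∧ k ≠ (1, 0) then 1 else if k = (0, 0) ∧ j = (1, 0) then c else
        if k = (0, 1) ∧ j = (1, 0) then s else 0
    obtain ⟨b, b1, B', b2⟩ := h a ⟨Matrix.of fun k j => B k j, by
      ext1 ⟨i, hi⟩ ⟨j, hj⟩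
      simp only [mul_apply, of_apply, conjTranspose_apply]
      rw [Finset.sum_coe_sort _ fun k => star (B k i) * B k j]
      simp only [Finset.mem_insert, Finset.mem_singleton] at hi hj
      rcases hi with rfl | rfl | rfl <;> rcases hj with rfl | rfl | rfl <;>
        simp [a, B, hc3, hc4]⟩ {(0, 0), (1, 0), (0, 1), (1, 1), (0, 2)} (by decide)
    have key : ∀ x, c x ≠ 0 → s x * b (0, -2) x = -conj (s x) := by
      intro x hx
      let k : Fin 5 → ℤ × ℤ := ![(0, 0), (1, 0), (0, 1), (1, 1), (0, 2)]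
      have hk : ∀ i, k i ∈ ({(0, 0), (1, 0), (0, 1), (1, 1), (0, 2)} : Finset (ℤ × ℤ)) := by decide
      have h1 : (Matrix.of fun i j => b (k i - k j) x).PosSemidef := by
        convert (posSemidef_conjTranspose_mul_self (B'.map fun f => f x)).submatrix
          fun i => ⟨k i, hk i⟩ using 1
        ext i j
        have := DFunLike.congr_fun (congrFun (congrFun b2 ⟨k i, hk i⟩) ⟨k j, hk j⟩) x
        simpa [mul_apply] using this
      have v0 : b 0 = 1 := by simpa [a] using b1 (0, 0) (by simp) (0, 0) (by simp)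
      have v1 : b (1, 0) = c := by simpa [a] using b1 (1, 0) (by simp) (0, 0) (by simp)
      have v2 : b (-1, 0) = c := by simpa [a] using b1 (0, 0) (by simp) (1, 0) (by simp)
      have v3 : b (0, 1) = 0 := by simpa [a] using b1 (0, 1) (by simp) (0, 0) (by simp)
      have v4 : b (0, -1) = 0 := by simpa [a] using b1 (0, 0) (by simp) (0, 1) (by simp)
      have v5 : b (1, -1) = star s := by simpa [a] using b1 (1, 0) (by simp) (0, 1) (by simp)
      have v6 : b (-1, 1) = s := by simpa [a] using b1 (0, 1) (by simp) (1, 0) (by simp)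
      have p1 := congrFun ((h1.dotProduct_mulVec_zero_iff ![-c x, 1, -s x, 0, 0]).mp (by
        simp [dotProduct, mulVec, Fin.sum_univ_five, k, v0, v1, v2, v3, v4, v5, v6, hc2]
        linear_combination -hc x)) 3
      have p2 := congrFun ((h1.dotProduct_mulVec_zero_iff ![0, 0, -c x, 1, -s x]).mp (by
        simp [dotProduct, mulVec, Fin.sum_univ_five, k, v0, v1, v2, v3, v4, v5, v6, hc2]
        linear_combination -hc x)) 0
      have p3 := h1.isHermitian.apply 0 3
      simp [dotProduct, mulVec, Fin.sum_univ_five, k, v1, v3, v4] at p1 p2 p3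
      have p4 : b (1, 1) x = -s x := mul_right_cancel₀ hx (by linear_combination -p1)
      rw [p4, map_neg] at p3
      linear_combination -p2 - p3
    have lim : ∀ u : ℂ, ‖u‖ = 1 → u * b (0, -2) ⟨0, by simp⟩ = -conj u := by
      intro u hu
      have t0 : ∀ n : ℕ, (0 : ℝ) < 1 / (n + 2) ∧ (1 / (n + 2) : ℝ) < 1 := fun n =>
        ⟨by positivity, by rw [div_lt_one (by positivity)]; linarith [n.cast_nonneg (α := ℝ)]⟩
      have nm : ∀ n : ℕ, ‖((1 / (n + 2) : ℝ) : ℂ) * u‖ = 1 / (n + 2) := fun n => by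
        rw [norm_mul, hu, mul_one, norm_real, Real.norm_of_nonneg (t0 n).1.le]
      let x : ℕ → Metric.closedBall (0 : ℂ) 1 := fun n => ⟨(1 / (n + 2) : ℝ) * u, by
        rw [mem_closedBall_zero_iff, nm]; exact (t0 n).2.le⟩
      have hx : Tendsto x atTop (𝓝 ⟨0, by simp⟩) := by
        rw [tendsto_subtype_rng, tendsto_zero_iff_norm_tendsto_zero]
        simp only [x, nm]
        exact tendsto_const_nhds.div_atTop (tendsto_natCast_atTop_atTop.atTop_add tendsto_const_nhds)
      refine tendsto_nhds_unique ((((b (0, -2)).continuous.tendsto _).comp hx).const_mul u)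
        (tendsto_const_nhds.congr fun n => ?_)
      have := key (x n) (by
        simp only [c, x, ContinuousMap.coe_mk, nm, ne_eq, ofReal_eq_zero]
        exact (Real.sqrt_pos.mpr (by nlinarith [t0 n])).ne')
      simp only [s, ContinuousMap.coe_mk, x, map_mul, conj_ofReal] at this
      refine mul_left_cancel₀ (ofReal_ne_zero.mpr (t0 n).1.ne') ?_
      simp only [Function.comp, x]
      linear_combination -this
    have l1 := lim 1 (by simp)
    have l2 := lim I (by simp)
    simp only [one_mul, map_one, conj_I, neg_neg] at l1 l2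
    rw [l1] at l2
    have := congrArg im l2
    norm_num at this

end Pool.Agent.Results.MP_76760e_an.Counter
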